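import Mathlib

namespace Pool.Agent.Results.MP_bfac72_an.Counter
open Set Topology

/-- Transitivity: every `N_T(U,V)` with `U, V` opene is nonempty. -/
def Transitive {X : Type} [TopologicalSpace X] (T : X → X) : Prop :=
  ∀ U V : Set X, IsOpen U → U.Nonempty → IsOpen V → V.Nonempty →
    ∃ n : ℕ, (T^[n] '' U ∩ V).Nonempty

/-- `S_T(U, δ)`. -/
def S {X : Type} [MetricSpace X] (T : X → X) (U : Set X) (δ : ℝ) : Set ℕ :=
  {n | ∃ x ∈ U, ∃ y ∈ U, dist (T^[n] x) (T^[n] y) > δ}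

/-- The family of all sets containing some `S_T(U, δ)` with `U` opene. -/
def Fam {X : Type} [MetricSpace X] (T : X → X) (δ : ℝ) : Set (Set ℕ) :=
  {A | ∃ U : Set X, IsOpen U ∧ U.Nonempty ∧ S T U δ ⊆ A}

/-- A proper family closed under pairwise intersection. -/
def IsFilterFam (F : Set (Set ℕ)) : Prop :=
  F ≠ ∅ ∧ F ≠ univ ∧ ∀ A ∈ F, ∀ B ∈ F, A ∩ B ∈ F

/-- Thick subsets of `ℕ`. -/
def Thick (A : Set ℕ) : Prop := ∀ L : ℕ, ∃ a : ℕ, ∀ i < L, a + i ∈ A

lemma gen : ∃ P : Set ℕ, ∀ (A : Finset ℕ) (L M : ℕ), ∃ s, M ≤ s ∧ ∀ i < L, (s + i ∈ P ↔ i ∈ A) := by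
  obtain ⟨e, he⟩ := exists_surjective_nat (Finset ℕ)
  refine ⟨{n | n - n.sqrt * n.sqrt ∈ e (Nat.unpair n.sqrt).1}, fun A L M => ?_⟩
  obtain ⟨B, rfl⟩ := he A
  have h1 : L + M ≤ Nat.pair B (L + M) := Nat.right_le_pair _ _
  refine ⟨Nat.pair B (L + M) * Nat.pair B (L + M), by nlinarith, fun i hi => ?_⟩
  have h2 := Nat.sqrt_add_eq (Nat.pair B (L + M)) (a := i) (by omega)
  simp only [mem_setOf_eq, h2, Nat.unpair_pair, Nat.add_sub_cancel_left]

attribute [local instance] PiNat.metricSpace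

def XS (P : Set ℕ) : Set (ℕ → Bool) :=
  {x | ∀ i j, i < j → x i = true → x j = true → j - i ∈ P}

lemma closed (P : Set ℕ) : IsClosed (XS P) := by
  have : XS P = ⋂ i, ⋂ j, (fun x : ℕ → Bool => (x i, x j)) ⁻¹'
      {q | i < j → q.1 = true → q.2 = true → j - i ∈ P} := by
    ext x; simp [XS]
  rw [this]
  exact isClosed_iInter fun i => isClosed_iInter fun j =>
    (isClosed_discrete _).preimage ((continuous_apply i).prodMk (continuous_apply j))

def sh (P : Set ℕ) (x : XS P) : XS P :=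
  ⟨fun n => x.1 (n + 1), fun i j hij hi hj => by
    have := x.2 (i + 1) (j + 1) (by omega) hi hj
    rwa [Nat.add_sub_add_right] at this⟩

lemma cval (P : Set ℕ) (m : ℕ) : Continuous fun x : XS P => x.1 m :=
  (continuous_apply (A := fun _ : ℕ => Bool) m).comp continuous_subtype_val

lemma csh (P : Set ℕ) : Continuous (sh P) :=
  Continuous.subtype_mk (continuous_pi fun n => cval P (n + 1)) _

lemma sh_iter (P : Set ℕ) (n : ℕ) (x : XS P) (i : ℕ) : ((sh P)^[n] x).1 i = x.1 (n + i) := by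
  induction n generalizing x with
  | zero => simp
  | succ n ih => 
    rw [Function.iterate_succ_apply, ih]
    exact congrArg x.1 (by omega : n + i + 1 = n + 1 + i)

lemma close (P : Set ℕ) (x y : XS P) (L : ℕ) (h : ∀ i < L, y.1 i = x.1 i) :
    dist y x ≤ (1 / 2 : ℝ) ^ L := PiNat.mem_cylinder_iff_dist_le.1 (PiNat.mem_cylinder_iff.2 h)

lemma far (P : Set ℕ) (x y : XS P) (h : x.1 0 ≠ y.1 0) : 1 ≤ dist x y := by
  by_contra hlt
  refine h (PiNat.apply_eq_of_dist_lt (n := 0) ?_ le_rfl)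
  rw [pow_zero]; exact not_le.1 hlt

lemma glue (P : Set ℕ) (x y : XS P) (L K n : ℕ) (hn : L ≤ n)
    (h : ∀ f < L, ∀ j < K, x.1 f = true → y.1 j = true → n + j - f ∈ P) :
    ∃ z : XS P, (∀ i < L, z.1 i = x.1 i) ∧ ∀ j < K, z.1 (n + j) = y.1 j := by
  refine ⟨⟨fun i => if i < L then x.1 i else if n ≤ i ∧ i < n + K then y.1 (i - n) else false,
    fun i j hij hi hj => ?_⟩, fun i hi => if_pos hi, fun j hj => ?_⟩
  · beta_reduce at hi hj
    split_ifs at hi hj with a1 a2 a3 a4 a5 a6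
    · exact x.2 i j hij hi hj
    · have := h i a1 (j - n) (by omega) hi hj
      rwa [show n + (j - n) = j by omega] at this
    · omega
    · have := y.2 (i - n) (j - n) (by omega) hi hj
      rwa [show j - n - (i - n) = j - i by omega] at this
  · simp only
    rw [if_neg (by omega), if_pos (by omega), Nat.add_sub_cancel_left]

lemma ball_sub {Z : Type} [MetricSpace Z] {U : Set Z} (hU : IsOpen U) {x : Z} (hx : x ∈ U) :
    ∃ L : ℕ, ∀ L' ≥ L, ∀ y, dist y x ≤ (1 / 2 : ℝ) ^ L' → y ∈ U := by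
  obtain ⟨ε, hε, h⟩ := Metric.isOpen_iff.1 hU x hx
  obtain ⟨L, hL⟩ := exists_pow_lt_of_lt_one hε (show (1 / 2 : ℝ) < 1 by norm_num)
  exact ⟨L, fun L' hL' y hy => h (lt_of_le_of_lt (hy.trans
    (pow_le_pow_of_le_one (by norm_num) (by norm_num) hL')) hL)⟩

def pt (P : Set ℕ) (m : ℕ) : XS P :=
  ⟨fun i => decide (i = m), fun i j hij hi hj => by simp at hi hj; omega⟩

def zr (P : Set ℕ) : XS P := ⟨fun _ => false, fun i j _ hi => by simp at hi⟩

lemma split (P : Set ℕ) (w : XS P) (L n : ℕ) (hn : L ≤ n) (W : Set (XS P))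
    (hW : ∀ y, dist y w ≤ (1 / 2 : ℝ) ^ L → y ∈ W) (δ : ℝ) (hδ : δ < 1)
    (h : ∀ f < L, w.1 f = true → n - f ∈ P) : n ∈ S (sh P) W δ := by
  obtain ⟨z0, a0, b0⟩ := glue P w (zr P) L 1 n hn (fun f _ j _ _ hj => by simp [zr] at hj)
  obtain ⟨z1, a1, b1⟩ := glue P w (pt P 0) L 1 n hn (fun f hf j hj hw _ => by
    obtain rfl : j = 0 := by omega
    exact h f hf hw)
  refine ⟨z0, hW _ (close P _ _ L a0), z1, hW _ (close P _ _ L a1), hδ.trans_le (far P _ _ ?_)⟩
  rw [sh_iter, sh_iter, b0 0 one_pos, b1 0 one_pos]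
  simp [zr, pt]

theorem result : ∃ (X : Type) (_ : MetricSpace X) (_ : CompactSpace X) (T : X → X),
    Nontrivial X ∧ Continuous T ∧ Function.Surjective T ∧ Transitive T ∧
    Transitive (Prod.map T T) ∧
    (∃ δ : ℝ, 0 < δ ∧ ∀ U : Set X, IsOpen U → U.Nonempty → Thick (S T U δ)) ∧
    ∀ δ : ℝ, 0 < δ → ¬ IsFilterFam (Fam T δ) := by
  classical
  obtain ⟨P, hP⟩ := gen
  have hth : ∀ L : ℕ, ∃ s, ∀ i < L, s + i ∈ P := fun L => by
    obtain ⟨s, -, h⟩ := hP (Finset.range L) L 0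
    exact ⟨s, fun i hi => (h i hi).2 (Finset.mem_range.2 hi)⟩
  have hgl : ∀ L : ℕ, ∃ n, ∀ x y : XS P, ∃ z : XS P, dist z x ≤ (1 / 2 : ℝ) ^ L ∧
      dist ((sh P)^[n] z) y ≤ (1 / 2 : ℝ) ^ L := fun L => by
    obtain ⟨s, hs⟩ := hth (2 * L + 1)
    refine ⟨s + L, fun x y => ?_⟩
    obtain ⟨z, h1, h2⟩ := glue P x y L L (s + L) (by omega) (fun f hf j hj _ _ => by
      have := hs (L + j - f) (by omega)
      rwa [show s + (L + j - f) = s + L + j - f by omega] at this)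
    exact ⟨z, close P _ _ L h1, close P _ _ L fun i hi => by rw [sh_iter]; exact h2 i hi⟩
  refine ⟨XS P, inferInstance, isCompact_iff_compactSpace.1 (closed P).isCompact, sh P,
    ⟨pt P 0, zr P, fun h => by simpa [pt, zr] using congrArg (fun x : XS P => x.1 0) h⟩,
    ?_, ?_, ?_, ?_, ⟨1 / 2, by norm_num, fun U hU ⟨x, hx⟩ K => ?_⟩, fun δ hδ ⟨_, h2, h3⟩ => ?_⟩
  · exact csh P
  · intro x
    refine ⟨⟨fun i => if i = 0 then false else x.1 (i - 1), fun i j hij hi hj => ?_⟩, ?_⟩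
    · beta_reduce at hi hj
      split_ifs at hi hj with a1 a2
      have := x.2 (i - 1) (j - 1) (by omega) hi hj
      rwa [show j - 1 - (i - 1) = j - i by omega] at this
    · exact Subtype.ext (funext fun n => by simp [sh])
  · rintro U V hU ⟨x, hx⟩ hV ⟨y, hy⟩
    obtain ⟨L1, h1⟩ := ball_sub hU hx
    obtain ⟨L2, h2⟩ := ball_sub hV hy
    obtain ⟨n, hn⟩ := hgl (L1 + L2)
    obtain ⟨z, a, b⟩ := hn x y
    exact ⟨n, _, ⟨z, h1 _ (by omega) _ a, rfl⟩, h2 _ (by omega) _ b⟩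
  · rintro U V hU ⟨x, hx⟩ hV ⟨y, hy⟩
    obtain ⟨L1, h1⟩ := ball_sub hU hx
    obtain ⟨L2, h2⟩ := ball_sub hV hy
    obtain ⟨n, hn⟩ := hgl (L1 + L2)
    obtain ⟨z, a, b⟩ := hn x.1 y.1
    obtain ⟨z', a', b'⟩ := hn x.2 y.2
    refine ⟨n, _, ⟨(z, z'), h1 (L1 + L2) (by omega) _ (max_le a a'), rfl⟩,
      h2 (L1 + L2) (by omega) _ ?_⟩
    rw [Prod.map_iterate]
    exact max_le b b'
  · obtain ⟨L, h1⟩ := ball_sub hU hx
    obtain ⟨s, hs⟩ := hth (L + K + 1)
    refine ⟨s + L, fun i hi => split P x L _ (by omega) U (h1 L le_rfl) _ (by norm_num)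
      fun f hf _ => ?_⟩
    have := hs (L + i - f) (by omega)
    rwa [show s + (L + i - f) = s + L + i - f by omega] at this
  · have hδ1 : δ < 1 := by
      by_contra hge
      refine h2 (eq_univ_of_forall fun A => ⟨univ, isOpen_univ, ⟨zr P, trivial⟩, ?_⟩)
      rintro n ⟨x, -, y, -, hxy⟩
      have := PiNat.dist_le_one ((sh P)^[n] x).1 ((sh P)^[n] y).1
      exact absurd (lt_of_lt_of_le hxy this) hge
    obtain ⟨k, hk⟩ := exists_pow_lt_of_lt_one hδ (show (1 / 2 : ℝ) < 1 by norm_num)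
    have hop : ∀ m : ℕ, IsOpen {x : XS P | x.1 m = true} := fun m =>
      (isOpen_discrete ({true} : Set Bool)).preimage (cval P m)
    have hne : ∀ m : ℕ, {x : XS P | x.1 m = true}.Nonempty := fun m => ⟨pt P m, by simp [pt]⟩
    obtain ⟨s0, hs0, hs1⟩ := hP ∅ (k + 1) 1
    obtain ⟨W, hW, ⟨w, hw⟩, hsub⟩ := h3 _ ⟨_, hop 0, hne 0, Subset.rfl⟩ _
      ⟨_, hop (s0 + k), hne (s0 + k), Subset.rfl⟩
    obtain ⟨L0, hL0⟩ := ball_sub hW hw
    have key : ∀ m ≤ s0 + k, (∀ f, f ≤ m → m ≤ f + k → w.1 f = false) →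
        ∃ n ∈ S (sh P) W δ, n ∉ S (sh P) {x : XS P | x.1 m = true} δ := by
      intro m hm hf
      set L := L0 + s0 + k + 1 with hL
      obtain ⟨s, -, hs⟩ := hP (((Finset.range L).filter fun f => w.1 f = true).image (L - ·))
        (L + k + 1) 0
      refine ⟨s + L, split P w L _ (by omega) W (hL0 L (by omega)) δ hδ1 fun f h1 h2 => ?_, ?_⟩
      · rw [show s + L - f = s + (L - f) by omega, hs _ (by omega)]
        exact Finset.mem_image.2 ⟨f, Finset.mem_filter.2 ⟨Finset.mem_range.2 h1, h2⟩, rfl⟩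
      · have hz : ∀ x : XS P, x.1 m = true → ∀ i < k, ((sh P)^[s + L] x).1 i = false := by
          intro x hx i hi
          rw [sh_iter]
          by_contra hc
          have h1 := x.2 m (s + L + i) (by omega) hx (by simpa using hc)
          rw [show s + L + i - m = s + (L + i - m) by omega, hs _ (by omega)] at h1
          obtain ⟨f, h4, h5⟩ := Finset.mem_image.1 h1
          obtain ⟨h6, h7⟩ := Finset.mem_filter.1 h4
          have h8 := Finset.mem_range.1 h6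
          rw [hf f (by omega) (by omega)] at h7
          exact absurd h7 (by simp)
        rintro ⟨x, hx, y, hy, hxy⟩
        have := close P ((sh P)^[s + L] y) ((sh P)^[s + L] x) k
          fun i hi => by rw [hz x hx i hi, hz y hy i hi]
        linarith
    by_cases h0 : w.1 0 = true
    · obtain ⟨n, a, b⟩ := key (s0 + k) le_rfl fun f h1 h4 => by
        by_contra hc
        have h5 := w.2 0 f (by omega) h0 (by simpa using hc)
        rw [show f - 0 = s0 + (f - s0) by omega, hs1 _ (by omega)] at h5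
        simp at h5
      exact b (hsub a).2
    · obtain ⟨n, a, b⟩ := key 0 (by omega) fun f h1 _ => by
        obtain rfl : f = 0 := by omega
        simpa using h0
      exact b (hsub a).1

end Pool.Agent.Results.MP_bfac72_an.Counter
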